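import Pool.Agent.Run7.h568.DG.Iface

/-! Piece `S_ineq`: the real inequalities. -/

open Real

namespace Run7.h832.DG

theorem exp_rpow (x k : ℝ) : (exp x) ^ k = exp (k * x) := by
  rw [← Real.exp_mul, mul_comm]

theorem two_cosh_le (k r : ℝ) (hk : 1 ≤ k) : 2 * cosh (k * r) ≤ (2 * cosh r) ^ k := by
  have h := Real.add_rpow_le_rpow_add (exp_pos r).le (exp_pos (-r)).le hk
  rw [exp_rpow, exp_rpow] at h
  have e1 : 2 * cosh r = exp r + exp (-r) := by rw [cosh_eq]; ring
  have e2 : 2 * cosh (k * r) = exp (k * r) + exp (k * -r) := by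
    rw [cosh_eq, mul_neg]; ring
  rw [e1, e2]
  exact h

theorem le_two_sinh (k x : ℝ) (hk : 1 ≤ k) (hx : 0 < x) :
    (2 * sinh x) ^ k ≤ 2 * sinh (k * x) := by
  have hs : 0 < sinh x := Real.sinh_pos_iff.2 hx
  have h := Real.add_rpow_le_rpow_add (by positivity : 0 ≤ 2 * sinh x) (exp_pos (-x)).le hk
  have e1 : 2 * sinh x + exp (-x) = exp x := by rw [sinh_eq]; ring
  rw [e1, exp_rpow, exp_rpow] at h
  have e2 : 2 * sinh (k * x) = exp (k * x) - exp (k * -x) := by
    rw [sinh_eq, mul_neg]; ring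
  rw [e2]
  linarith

theorem sinh_step (n : ℕ) (x : ℝ) :
    sinh (((n + 1 : ℕ) : ℝ) * x) = exp (n * x) * sinh x + exp (-x) * sinh (n * x) := by
  push_cast
  rw [sinh_eq, sinh_eq, sinh_eq]
  have e1 : exp ((n + 1) * x) = exp (n * x) * exp x := by rw [← exp_add]; ring_nf
  have e2 : exp (-((n + 1) * x)) = exp (-(n * x)) * exp (-x) := by rw [← exp_add]; ring_nf
  rw [e1, e2]
  have e3 : exp x * exp (-x) = 1 := by rw [← exp_add]; simp
  ring

theorem ratio_le (k x : ℝ) (hk : 1 ≤ k) (hx : 0 < x) (n : ℕ) :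
    sinh (n * (k * x)) / sinh (k * x) ≤ (sinh (n * x) / sinh x) ^ k := by
  have hs : 0 < sinh x := Real.sinh_pos_iff.2 hx
  have hkx : 0 < k * x := by positivity
  have hs' : 0 < sinh (k * x) := Real.sinh_pos_iff.2 hkx
  induction n with
  | zero => simp [Real.zero_rpow (by linarith : k ≠ 0)]
  | succ n ih =>
    have ha : 0 ≤ sinh (n * x) / sinh x :=
      div_nonneg (Real.sinh_nonneg_iff.2 (by positivity)) hs.le
    have h1 : sinh (((n + 1 : ℕ) : ℝ) * (k * x)) / sinh (k * x) =
        exp (n * (k * x)) + exp (-(k * x)) * (sinh (n * (k * x)) / sinh (k * x)) := by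
      rw [sinh_step]; field_simp
    have h2 : sinh (((n + 1 : ℕ) : ℝ) * x) / sinh x =
        exp (n * x) + exp (-x) * (sinh (n * x) / sinh x) := by
      rw [sinh_step]; field_simp
    rw [h1, h2]
    have h3 := Real.add_rpow_le_rpow_add (exp_pos (n * x)).le
      (mul_nonneg (exp_pos (-x)).le ha) hk
    rw [Real.mul_rpow (exp_pos _).le ha, exp_rpow, exp_rpow] at h3
    have e1 : k * (n * x) = n * (k * x) := by ring
    have e2 : k * -x = -(k * x) := by ring
    rw [e1, e2] at h3
    have h4 : exp (-(k * x)) * (sinh (n * (k * x)) / sinh (k * x)) ≤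
        exp (-(k * x)) * (sinh (n * x) / sinh x) ^ k :=
      mul_le_mul_of_nonneg_left ih (exp_pos _).le
    linarith

end Run7.h832.DG

namespace Run7.h568.DG

open Run7.h832.DG

theorem ineq : S_ineq := by
  intro k hk l hl
  have hl2 : 0 < l / 2 := by positivity
  refine ⟨fun r => ?_, fun n => ?_⟩
  · have hs : 0 < sinh (l / 2) := Real.sinh_pos_iff.2 hl2
    have h1 := two_cosh_le k r hk
    have h2 := le_two_sinh k (l / 2) hk hl2
    have e : k * l / 2 = k * (l / 2) := by ring
    rw [e]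
    have h3 : 0 < (2 * sinh (l / 2)) ^ k := Real.rpow_pos_of_pos (by positivity) _
    have h4 : cosh r / sinh (l / 2) = (2 * cosh r) / (2 * sinh (l / 2)) := by
      field_simp
    rw [h4, Real.div_rpow (by have := cosh_pos r; positivity) (by positivity)]
    have h5 : cosh (k * r) / sinh (k * (l / 2)) = (2 * cosh (k * r)) / (2 * sinh (k * (l / 2))) := by
      have : 0 < sinh (k * (l / 2)) := by linarith
      field_simp
    rw [h5]
    exact div_le_div₀ (Real.rpow_nonneg (by have := cosh_pos r; positivity) _) h1 h3 h2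
  · have h := ratio_le k (l / 2) hk hl2 n
    have e1 : (n : ℝ) * (k * l) / 2 = n * (k * (l / 2)) := by ring
    have e2 : k * l / 2 = k * (l / 2) := by ring
    have e3 : (n : ℝ) * l / 2 = n * (l / 2) := by ring
    rw [e1, e2, e3]
    exact h

end Run7.h568.DG
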